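import Pool.Agent.Helper43.Gx.Goals2

/-! Y3: points of arbitrary multiplicity and small points. -/

set_option autoImplicit false

namespace Pool.Agent.Helper43.Gx.PkY3

open Finset Pool.Agent.Lead.Sh
open Pool.Agent.Helper43.Gm (st mv nn SS Run Pri)
open Pool.Agent.Helper43.Ah (inj_relabel enum)
open Helper18.Np (fm)

/-- Add points which give `m - y` to the row `y`. -/
theorem pri_add (R N L : ℕ) (ν : ℕ → ℕ) (n : ℕ → ℕ → ℕ) (π ε : ℕ → ℤ) (h : Pri R ν n π ε N)
    (g : ℕ → ℕ) : ∃ ε' : ℕ → ℤ, Pri R (fun c => if c < N then ν c else g (c - N))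
      (fun c y => if c < N then n c y else g (c - N) - y) π ε' (N + L) := by
  set E : ℤ := 1 + ∑ y ∈ range R, 2 * |π y| with hE
  have hEb : ∀ y < R, ∀ y' < R, π y' - π y < E := by
    intro y hy y' hy'
    have h1 : |π y| + |π y'| ≤ ∑ y ∈ range R, 2 * |π y| := by
      by_cases hyy : y = y'
      · subst hyy
        have := single_le_sum (f := fun y => 2 * |π y|) (fun i _ => by positivity)
          (mem_range.2 hy)
        linarith
      · have h2 : ∑ z ∈ ({y, y'} : Finset ℕ), 2 * |π z| ≤ ∑ y ∈ range R, 2 * |π y| := by
          apply sum_le_sum_of_subset_of_nonneg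
          · intro z hz
            rw [mem_insert, mem_singleton] at hz
            rcases hz with rfl | rfl
            · exact mem_range.2 hy
            · exact mem_range.2 hy'
          · intro i _ _
            positivity
        rw [sum_pair hyy] at h2
        have := abs_nonneg (π y)
        have := abs_nonneg (π y')
        linarith
    have h2 := le_abs_self (π y')
    have h3 := neg_abs_le (π y)
    linarith
  refine ⟨fun c => if c < N then ε c else E, ?_⟩
  intro c hc y hy hn
  by_cases hcN : c < N
  · simp only [if_pos hcN] at hn ⊢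
    exact h c hcN y hy hn
  · simp only [if_neg hcN] at hn ⊢
    refine ⟨range y, by simp, by rw [card_range]; omega, ?_⟩
    intro y' hy' hyU hyne
    rw [mem_range] at hyU
    have h1 : (1 : ℤ) ≤ (y' : ℤ) - y := by omega
    have h2 := hEb y hy y' hy'
    have h3 : 0 ≤ E := by
      rw [hE]
      have : 0 ≤ ∑ y ∈ range R, 2 * |π y| := sum_nonneg fun i _ => by positivity
      linarith
    nlinarith

theorem goalY3 (hA : Gm.GoalA) (hY2 : GoalY2) : GoalY3 := by
  classical
  intro M μ S R ℓ s mm K O A D hμ hμM hR hD hK hOA hO hAm hStep hZone halt htot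
  obtain ⟨e1, e1m, e1i, e1s⟩ := enum O
  obtain ⟨e2, e2m, e2i, e2s⟩ := enum A
  obtain ⟨e3, e3m, e3i, e3s⟩ := enum K
  set N0 := O.card with hN0
  set N1 := A.card with hN1
  set ν : ℕ → ℕ := fun c => if c < N0 then mm (e1 c) else μ with hν
  have hsumO : ∀ f : ℕ → ℕ, ∑ c ∈ range N0, f (ν c) = ∑ k ∈ O, f (mm k) := by
    intro f
    rw [← e1s (fun k => f (mm k))]
    apply sum_congr rfl
    intro c hc
    rw [mem_range] at hc
    simp only [hν, if_pos hc]
  have hsumA : ∀ f : ℕ → ℕ, ∑ c ∈ range N1, f (ν (N0 + c)) = ∑ k ∈ A, f (mm k) := by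
    intro f
    rw [← e2s (fun k => f (mm k))]
    apply sum_congr rfl
    intro c hc
    rw [mem_range] at hc
    simp only [hν]
    rw [if_neg (by omega), hAm _ (e2m c hc)]
  obtain ⟨n, π, ε, hpri, hrow⟩ := hY2 M μ S R N0 (N0 + N1) ν ℓ hμ hμM (by
      intro c
      simp only [hν]
      split_ifs with hc
      · exact (hO _ (e1m c hc)).1
      · exact hμ) (by
      intro c
      simp only [hν]
      split_ifs with hc
      · exact (hO _ (e1m c hc)).2
      · exact hμM) (by
      intro c hc
      simp only [hν]
      rw [if_neg (by omega)]) hR hStep hZone (by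
      rw [hsumO (fun a => (a + 1).choose 2), hsumO (fun a => a)]
      exact halt) (by
      rw [sum_range_add, hsumO (fun a => (a + 1).choose 2), hsumA (fun a => (a + 1).choose 2),
        ← htot, sum_union hOA])
  obtain ⟨ε', hpri'⟩ := pri_add R (N0 + N1) K.card ν n π ε hpri (fun j => mm (e3 j))
  have hinj := hA 0 R s (fun y => ℓ y + fm mm K y) D (by
      intro d hd
      have := hD d hd
      simp only [zero_mul, zero_add]
      exact this) _ _ _ _ _ hpri' (by
      intro y hy
      rw [sum_range_add]
      apply Nat.add_le_add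
      · refine (hrow y hy).trans (le_of_eq ?_)
        apply sum_congr rfl
        intro c hc
        rw [mem_range] at hc
        rw [if_pos hc]
      · refine le_of_eq ?_
        unfold fm
        rw [← e3s (fun k => mm k - y)]
        apply sum_congr rfl
        intro c _
        rw [if_neg (by omega), show N0 + N1 + c - (N0 + N1) = c by omega])
  refine inj_relabel (fun c => if c < N0 then e1 c else if c < N0 + N1 then e2 (c - N0)
    else e3 (c - (N0 + N1))) ?_ ?_ ?_ hinj
  · intro c hc
    rw [mem_range] at hc
    rw [mem_union, mem_union]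
    by_cases h1 : c < N0
    · right; left
      simp only [if_pos h1]
      exact e1m c h1
    · by_cases h2 : c < N0 + N1
      · right; right
        simp only [if_neg h1, if_pos h2]
        exact e2m _ (by omega)
      · left
        simp only [if_neg h1, if_neg h2]
        exact e3m _ (by omega)
  · intro c hc c' hc' hee
    rw [mem_range] at hc hc'
    have hKO : ∀ a ∈ K, ∀ b ∈ O, a ≠ b := fun a ha b hb hab =>
      disjoint_left.1 hK ha (mem_union_left _ (hab ▸ hb))
    have hKA : ∀ a ∈ K, ∀ b ∈ A, a ≠ b := fun a ha b hb hab =>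
      disjoint_left.1 hK ha (mem_union_right _ (hab ▸ hb))
    have hOA' : ∀ a ∈ O, ∀ b ∈ A, a ≠ b := fun a ha b hb hab =>
      disjoint_left.1 hOA ha (hab ▸ hb)
    by_cases h1 : c < N0
    · by_cases h1' : c' < N0
      · simp only [if_pos h1, if_pos h1'] at hee
        exact e1i c h1 c' h1' hee
      · by_cases h2' : c' < N0 + N1
        · simp only [if_pos h1, if_neg h1', if_pos h2'] at hee
          exact absurd hee (hOA' _ (e1m c h1) _ (e2m _ (by omega)))
        · simp only [if_pos h1, if_neg h1', if_neg h2'] at hee
          exact absurd hee.symm (hKO _ (e3m _ (by omega)) _ (e1m c h1))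
    · by_cases h2 : c < N0 + N1
      · by_cases h1' : c' < N0
        · simp only [if_neg h1, if_pos h2, if_pos h1'] at hee
          exact absurd hee.symm (hOA' _ (e1m c' h1') _ (e2m _ (by omega)))
        · by_cases h2' : c' < N0 + N1
          · simp only [if_neg h1, if_pos h2, if_neg h1', if_pos h2'] at hee
            have := e2i (c - N0) (by omega) (c' - N0) (by omega) hee
            omega
          · simp only [if_neg h1, if_pos h2, if_neg h1', if_neg h2'] at hee
            exact absurd hee.symm (hKA _ (e3m _ (by omega)) _ (e2m _ (by omega)))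
      · by_cases h1' : c' < N0
        · simp only [if_neg h1, if_neg h2, if_pos h1'] at hee
          exact absurd hee (hKO _ (e3m _ (by omega)) _ (e1m c' h1'))
        · by_cases h2' : c' < N0 + N1
          · simp only [if_neg h1, if_neg h2, if_neg h1', if_pos h2'] at hee
            exact absurd hee (hKA _ (e3m _ (by omega)) _ (e2m _ (by omega)))
          · simp only [if_neg h1, if_neg h2, if_neg h1', if_neg h2'] at hee
            have := e3i (c - (N0 + N1)) (by omega) (c' - (N0 + N1)) (by omega) hee
            omega
  · intro c hc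
    rw [mem_range] at hc
    by_cases h1 : c < N0
    · simp only [if_pos h1, if_pos (show c < N0 + N1 by omega), hν]
    · by_cases h2 : c < N0 + N1
      · simp only [if_neg h1, if_pos h2, hν]
        exact hAm _ (e2m _ (by omega))
      · simp only [if_neg h1, if_neg h2]

end Pool.Agent.Helper43.Gx.PkY3
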