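import Pool.Agent.Helper43.Gx.Goals

/-! X2: the number of points started in a row. -/

set_option autoImplicit false

namespace Pool.Agent.Helper43.Gx.PkX2

open Finset Pool.Agent.Lead.Sh
open Pool.Agent.Helper43.Gm (st mv nn SS Run Pri)
open Pool.Agent.Helper43.Gm.PkD (od SS_eq od_le drop T_moved)

theorem goalX2 : GoalX2 := by
  intro M R ν κ x hR y hy hSS
  have hmono : κ y ≤ κ (y + 1) := hR.mono y hy
  have hM1 : 1 ≤ M := (hR.ν1 0).trans (hR.νM 0)
  have hx1 : x (y + 1) ≤ M := (hR.le (y + 1) hy).trans (hR.νM _)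
  have hRr : Run M (y + 1) ν κ x :=
    ⟨hR.ν1, hR.νM, fun t ht => hR.mono t (by omega), fun t ht => hR.le t (by omega),
      fun t ht => hR.inc t (by omega)⟩
  have haa : aa κ x y ≤ aa κ x (y + 1) := by
    unfold aa
    rcases Nat.lt_or_ge (κ y) (κ (y + 1)) with h | h
    · split_ifs <;> omega
    · have he : κ (y + 1) = κ y := by omega
      by_cases h0 : 0 < x y
      · have := hR.inc y hy h0 he
        rw [if_pos h0, if_pos (by omega : 0 < x (y + 1))]
        omega
      · rw [if_neg h0]
        omega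
  refine ⟨haa, ?_⟩
  obtain ⟨D, hD⟩ : ∃ D, aa κ x (y + 1) = aa κ x y + D := ⟨aa κ x (y + 1) - aa κ x y, by omega⟩
  obtain ⟨o, ho1, ho2⟩ := drop (κ := κ) (x := x) (y := y) hR.νM
  set B := ∑ c ∈ range (κ y), od κ x ν c y with hB
  set B' := ∑ c ∈ range (κ y), od κ x ν c (y + 1) with hB'
  have hS0 : SS κ x ν y = B + x y := SS_eq κ x ν y
  have hS1 : SS κ x ν (y + 1) ≤ B' + M + M * D := by
    rw [SS_eq]
    rcases Nat.lt_or_ge (κ y) (κ (y + 1)) with h | h
    · rw [T_moved hRr (K := κ (y + 1)) h]
      have e1 : od κ x ν (κ y) (y + 1) ≤ M := od_le.trans (hR.νM _)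
      have e2 : ∑ c ∈ Ico (κ y + 1) (κ (y + 1)), ν c ≤ (κ (y + 1) - (κ y + 1)) * M := by
        refine (sum_le_card_nsmul _ _ M (fun c _ => hR.νM c)).trans ?_
        rw [Nat.card_Ico, smul_eq_mul]
      obtain ⟨j, hj⟩ : ∃ j, κ (y + 1) = κ y + 1 + j := ⟨κ (y + 1) - (κ y + 1), by omega⟩
      have e3 : κ (y + 1) - (κ y + 1) = j := by omega
      rw [e3] at e2
      rw [← hB']
      unfold aa at hD
      by_cases h0 : 0 < x y
      · rw [if_pos h0] at hD
        by_cases h1 : 0 < x (y + 1)
        · rw [if_pos h1] at hD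
          have : D = j + 1 := by omega
          subst this
          nlinarith
        · rw [if_neg h1] at hD
          have : D = j := by omega
          subst this
          have : x (y + 1) = 0 := by omega
          nlinarith
      · rw [if_neg h0] at hD
        by_cases h1 : 0 < x (y + 1)
        · rw [if_pos h1] at hD
          have : D = j + 2 := by omega
          subst this
          nlinarith
        · rw [if_neg h1] at hD
          have : D = j + 1 := by omega
          subst this
          have : x (y + 1) = 0 := by omega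
          nlinarith
    · have he : κ (y + 1) = κ y := by omega
      rw [he, ← hB']
      have : 0 ≤ M * D := Nat.zero_le _
      omega
  have hD' : aa κ x (y + 1) - aa κ x y = D := by omega
  rw [hD']
  rw [hS0] at hSS ⊢
  have ho : o + x y ≤ M + M * D + 1 := by omega
  have h3 : M * (o + x y) ≤ M * (M + M * D + 1) := Nat.mul_le_mul_left M ho
  have h4 : x y ≤ M * x y := Nat.le_mul_of_pos_left _ hM1
  have h5 : M ≤ M * M := Nat.le_mul_of_pos_left _ hM1
  calc B + x y ≤ M * o + M * x y := Nat.add_le_add ho2 h4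
    _ = M * (o + x y) := by ring
    _ ≤ M * (M + M * D + 1) := h3
    _ = M ^ 2 * D + M ^ 2 + M := by ring
    _ ≤ M ^ 2 * D + 3 * M ^ 2 := by nlinarith

end Pool.Agent.Helper43.Gx.PkX2
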